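import Pool.Agent.Lib.Pbbea99T.D7.Data

/-!
# MP_bbea99_co: closure of the templates
-/

namespace MPbbea99T.D7

open MPbbea99T

theorem tc0 : allL (chkT P) t0 = true := by decide +kernel

theorem tc1 : allL (chkT P) t1 = true := by decide +kernel

theorem tc2 : allL (chkT P) t2 = true := by decide +kernel

theorem tc3 : allL (chkT P) t3 = true := by decide +kernel

theorem tc4 : allL (chkT P) t4 = true := by decide +kernel

end MPbbea99T.D7
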