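import Pool.Agent.Lib.Pbbea99T.D7.Data

/-!
# MP_bbea99_co: closure of the templates
-/

namespace MPbbea99T.D7

open MPbbea99T

theorem tc20 : allL (chkT P) t20 = true := by decide +kernel

theorem tc21 : allL (chkT P) t21 = true := by decide +kernel

theorem tc22 : allL (chkT P) t22 = true := by decide +kernel

theorem tc23 : allL (chkT P) t23 = true := by decide +kernel

theorem tc24 : allL (chkT P) t24 = true := by decide +kernel

end MPbbea99T.D7
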