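import Pool.Agent.Lib.Pbbea99T.D7.Data

/-!
# MP_bbea99_co: the certificates
-/

namespace MPbbea99T.D7

open MPbbea99T MPbbea99S

theorem hU_12 : Tc.chkU T S 12 = true := by decide +kernel

theorem hOU_12 : Tc.chkOU T S 12 = true := by decide +kernel

theorem r1_12 : ∀ s, s < 2 → ∀ κ, κ < 7 → ∀ r, r < 77 →
    S.rn T.n 12 s κ (r + 1) + 128 = S.rn T.n 12 s κ r + T.omn 12 ((S.X s r + κ) % T.n) := by
  decide +kernel

theorem hU_13 : Tc.chkU T S 13 = true := by decide +kernel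

theorem hOU_13 : Tc.chkOU T S 13 = true := by decide +kernel

theorem r1_13 : ∀ s, s < 2 → ∀ κ, κ < 7 → ∀ r, r < 77 →
    S.rn T.n 13 s κ (r + 1) + 128 = S.rn T.n 13 s κ r + T.omn 13 ((S.X s r + κ) % T.n) := by
  decide +kernel

theorem hU_14 : Tc.chkU T S 14 = true := by decide +kernel

theorem hOU_14 : Tc.chkOU T S 14 = true := by decide +kernel

theorem r1_14 : ∀ s, s < 2 → ∀ κ, κ < 7 → ∀ r, r < 77 →
    S.rn T.n 14 s κ (r + 1) + 128 = S.rn T.n 14 s κ r + T.omn 14 ((S.X s r + κ) % T.n) := by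
  decide +kernel

theorem hU_15 : Tc.chkU T S 15 = true := by decide +kernel

theorem hOU_15 : Tc.chkOU T S 15 = true := by decide +kernel

theorem r1_15 : ∀ s, s < 2 → ∀ κ, κ < 7 → ∀ r, r < 77 →
    S.rn T.n 15 s κ (r + 1) + 128 = S.rn T.n 15 s κ r + T.omn 15 ((S.X s r + κ) % T.n) := by
  decide +kernel

theorem hU_16 : Tc.chkU T S 16 = true := by decide +kernel

theorem hOU_16 : Tc.chkOU T S 16 = true := by decide +kernel

theorem r1_16 : ∀ s, s < 2 → ∀ κ, κ < 7 → ∀ r, r < 77 →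
    S.rn T.n 16 s κ (r + 1) + 128 = S.rn T.n 16 s κ r + T.omn 16 ((S.X s r + κ) % T.n) := by
  decide +kernel

theorem hU_17 : Tc.chkU T S 17 = true := by decide +kernel

theorem hOU_17 : Tc.chkOU T S 17 = true := by decide +kernel

theorem r1_17 : ∀ s, s < 2 → ∀ κ, κ < 7 → ∀ r, r < 77 →
    S.rn T.n 17 s κ (r + 1) + 128 = S.rn T.n 17 s κ r + T.omn 17 ((S.X s r + κ) % T.n) := by
  decide +kernel

theorem hU_18 : Tc.chkU T S 18 = true := by decide +kernel

theorem hOU_18 : Tc.chkOU T S 18 = true := by decide +kernel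

theorem r1_18 : ∀ s, s < 2 → ∀ κ, κ < 7 → ∀ r, r < 77 →
    S.rn T.n 18 s κ (r + 1) + 128 = S.rn T.n 18 s κ r + T.omn 18 ((S.X s r + κ) % T.n) := by
  decide +kernel

theorem hU_19 : Tc.chkU T S 19 = true := by decide +kernel

theorem hOU_19 : Tc.chkOU T S 19 = true := by decide +kernel

theorem r1_19 : ∀ s, s < 2 → ∀ κ, κ < 7 → ∀ r, r < 77 →
    S.rn T.n 19 s κ (r + 1) + 128 = S.rn T.n 19 s κ r + T.omn 19 ((S.X s r + κ) % T.n) := by
  decide +kernel

theorem hU_20 : Tc.chkU T S 20 = true := by decide +kernel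

theorem hOU_20 : Tc.chkOU T S 20 = true := by decide +kernel

theorem r1_20 : ∀ s, s < 2 → ∀ κ, κ < 7 → ∀ r, r < 77 →
    S.rn T.n 20 s κ (r + 1) + 128 = S.rn T.n 20 s κ r + T.omn 20 ((S.X s r + κ) % T.n) := by
  decide +kernel

theorem hU_21 : Tc.chkU T S 21 = true := by decide +kernel

theorem hOU_21 : Tc.chkOU T S 21 = true := by decide +kernel

theorem r1_21 : ∀ s, s < 2 → ∀ κ, κ < 7 → ∀ r, r < 77 →
    S.rn T.n 21 s κ (r + 1) + 128 = S.rn T.n 21 s κ r + T.omn 21 ((S.X s r + κ) % T.n) := by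
  decide +kernel

theorem hU_22 : Tc.chkU T S 22 = true := by decide +kernel

theorem hOU_22 : Tc.chkOU T S 22 = true := by decide +kernel

theorem r1_22 : ∀ s, s < 2 → ∀ κ, κ < 7 → ∀ r, r < 77 →
    S.rn T.n 22 s κ (r + 1) + 128 = S.rn T.n 22 s κ r + T.omn 22 ((S.X s r + κ) % T.n) := by
  decide +kernel

theorem hU_23 : Tc.chkU T S 23 = true := by decide +kernel

theorem hOU_23 : Tc.chkOU T S 23 = true := by decide +kernel

theorem r1_23 : ∀ s, s < 2 → ∀ κ, κ < 7 → ∀ r, r < 77 →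
    S.rn T.n 23 s κ (r + 1) + 128 = S.rn T.n 23 s κ r + T.omn 23 ((S.X s r + κ) % T.n) := by
  decide +kernel

end MPbbea99T.D7
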