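import Pool.Agent.Lib.Pbbea99T.D7.Data

/-!
# MP_bbea99_co: the certificates
-/

namespace MPbbea99T.D7

open MPbbea99T MPbbea99S

theorem hU_24 : Tc.chkU T S 24 = true := by decide +kernel

theorem hOU_24 : Tc.chkOU T S 24 = true := by decide +kernel

theorem r1_24 : ∀ s, s < 2 → ∀ κ, κ < 7 → ∀ r, r < 77 →
    S.rn T.n 24 s κ (r + 1) + 128 = S.rn T.n 24 s κ r + T.omn 24 ((S.X s r + κ) % T.n) := by
  decide +kernel

theorem hU_25 : Tc.chkU T S 25 = true := by decide +kernel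

theorem hOU_25 : Tc.chkOU T S 25 = true := by decide +kernel

theorem r1_25 : ∀ s, s < 2 → ∀ κ, κ < 7 → ∀ r, r < 77 →
    S.rn T.n 25 s κ (r + 1) + 128 = S.rn T.n 25 s κ r + T.omn 25 ((S.X s r + κ) % T.n) := by
  decide +kernel

theorem hU_26 : Tc.chkU T S 26 = true := by decide +kernel

theorem hOU_26 : Tc.chkOU T S 26 = true := by decide +kernel

theorem r1_26 : ∀ s, s < 2 → ∀ κ, κ < 7 → ∀ r, r < 77 →
    S.rn T.n 26 s κ (r + 1) + 128 = S.rn T.n 26 s κ r + T.omn 26 ((S.X s r + κ) % T.n) := by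
  decide +kernel

theorem hU_27 : Tc.chkU T S 27 = true := by decide +kernel

theorem hOU_27 : Tc.chkOU T S 27 = true := by decide +kernel

theorem r1_27 : ∀ s, s < 2 → ∀ κ, κ < 7 → ∀ r, r < 77 →
    S.rn T.n 27 s κ (r + 1) + 128 = S.rn T.n 27 s κ r + T.omn 27 ((S.X s r + κ) % T.n) := by
  decide +kernel

theorem hU_28 : Tc.chkU T S 28 = true := by decide +kernel

theorem hOU_28 : Tc.chkOU T S 28 = true := by decide +kernel

theorem r1_28 : ∀ s, s < 2 → ∀ κ, κ < 7 → ∀ r, r < 77 →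
    S.rn T.n 28 s κ (r + 1) + 128 = S.rn T.n 28 s κ r + T.omn 28 ((S.X s r + κ) % T.n) := by
  decide +kernel

theorem hU_29 : Tc.chkU T S 29 = true := by decide +kernel

theorem hOU_29 : Tc.chkOU T S 29 = true := by decide +kernel

theorem r1_29 : ∀ s, s < 2 → ∀ κ, κ < 7 → ∀ r, r < 77 →
    S.rn T.n 29 s κ (r + 1) + 128 = S.rn T.n 29 s κ r + T.omn 29 ((S.X s r + κ) % T.n) := by
  decide +kernel

theorem hU_30 : Tc.chkU T S 30 = true := by decide +kernel

theorem hOU_30 : Tc.chkOU T S 30 = true := by decide +kernel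

theorem r1_30 : ∀ s, s < 2 → ∀ κ, κ < 7 → ∀ r, r < 77 →
    S.rn T.n 30 s κ (r + 1) + 128 = S.rn T.n 30 s κ r + T.omn 30 ((S.X s r + κ) % T.n) := by
  decide +kernel

theorem hU_31 : Tc.chkU T S 31 = true := by decide +kernel

theorem hOU_31 : Tc.chkOU T S 31 = true := by decide +kernel

theorem r1_31 : ∀ s, s < 2 → ∀ κ, κ < 7 → ∀ r, r < 77 →
    S.rn T.n 31 s κ (r + 1) + 128 = S.rn T.n 31 s κ r + T.omn 31 ((S.X s r + κ) % T.n) := by
  decide +kernel

theorem hU_32 : Tc.chkU T S 32 = true := by decide +kernel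

theorem hOU_32 : Tc.chkOU T S 32 = true := by decide +kernel

theorem r1_32 : ∀ s, s < 2 → ∀ κ, κ < 7 → ∀ r, r < 77 →
    S.rn T.n 32 s κ (r + 1) + 128 = S.rn T.n 32 s κ r + T.omn 32 ((S.X s r + κ) % T.n) := by
  decide +kernel

theorem hU_33 : Tc.chkU T S 33 = true := by decide +kernel

theorem hOU_33 : Tc.chkOU T S 33 = true := by decide +kernel

theorem r1_33 : ∀ s, s < 2 → ∀ κ, κ < 7 → ∀ r, r < 77 →
    S.rn T.n 33 s κ (r + 1) + 128 = S.rn T.n 33 s κ r + T.omn 33 ((S.X s r + κ) % T.n) := by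
  decide +kernel

theorem hU_34 : Tc.chkU T S 34 = true := by decide +kernel

theorem hOU_34 : Tc.chkOU T S 34 = true := by decide +kernel

theorem r1_34 : ∀ s, s < 2 → ∀ κ, κ < 7 → ∀ r, r < 77 →
    S.rn T.n 34 s κ (r + 1) + 128 = S.rn T.n 34 s κ r + T.omn 34 ((S.X s r + κ) % T.n) := by
  decide +kernel

theorem hU_35 : Tc.chkU T S 35 = true := by decide +kernel

theorem hOU_35 : Tc.chkOU T S 35 = true := by decide +kernel

theorem r1_35 : ∀ s, s < 2 → ∀ κ, κ < 7 → ∀ r, r < 77 →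
    S.rn T.n 35 s κ (r + 1) + 128 = S.rn T.n 35 s κ r + T.omn 35 ((S.X s r + κ) % T.n) := by
  decide +kernel

end MPbbea99T.D7
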