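import Pool.Agent.Lib.Pbbea99T.D7.Data

/-!
# MP_bbea99_co: the certificates
-/

namespace MPbbea99T.D7

open MPbbea99T MPbbea99S

theorem hU_36 : Tc.chkU T S 36 = true := by decide +kernel

theorem hOU_36 : Tc.chkOU T S 36 = true := by decide +kernel

theorem r1_36 : ∀ s, s < 2 → ∀ κ, κ < 7 → ∀ r, r < 77 →
    S.rn T.n 36 s κ (r + 1) + 128 = S.rn T.n 36 s κ r + T.omn 36 ((S.X s r + κ) % T.n) := by
  decide +kernel

theorem hU_37 : Tc.chkU T S 37 = true := by decide +kernel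

theorem hOU_37 : Tc.chkOU T S 37 = true := by decide +kernel

theorem r1_37 : ∀ s, s < 2 → ∀ κ, κ < 7 → ∀ r, r < 77 →
    S.rn T.n 37 s κ (r + 1) + 128 = S.rn T.n 37 s κ r + T.omn 37 ((S.X s r + κ) % T.n) := by
  decide +kernel

theorem hU_38 : Tc.chkU T S 38 = true := by decide +kernel

theorem hOU_38 : Tc.chkOU T S 38 = true := by decide +kernel

theorem r1_38 : ∀ s, s < 2 → ∀ κ, κ < 7 → ∀ r, r < 77 →
    S.rn T.n 38 s κ (r + 1) + 128 = S.rn T.n 38 s κ r + T.omn 38 ((S.X s r + κ) % T.n) := by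
  decide +kernel

theorem hU_39 : Tc.chkU T S 39 = true := by decide +kernel

theorem hOU_39 : Tc.chkOU T S 39 = true := by decide +kernel

theorem r1_39 : ∀ s, s < 2 → ∀ κ, κ < 7 → ∀ r, r < 77 →
    S.rn T.n 39 s κ (r + 1) + 128 = S.rn T.n 39 s κ r + T.omn 39 ((S.X s r + κ) % T.n) := by
  decide +kernel

theorem hU_40 : Tc.chkU T S 40 = true := by decide +kernel

theorem hOU_40 : Tc.chkOU T S 40 = true := by decide +kernel

theorem r1_40 : ∀ s, s < 2 → ∀ κ, κ < 7 → ∀ r, r < 77 →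
    S.rn T.n 40 s κ (r + 1) + 128 = S.rn T.n 40 s κ r + T.omn 40 ((S.X s r + κ) % T.n) := by
  decide +kernel

theorem hU_41 : Tc.chkU T S 41 = true := by decide +kernel

theorem hOU_41 : Tc.chkOU T S 41 = true := by decide +kernel

theorem r1_41 : ∀ s, s < 2 → ∀ κ, κ < 7 → ∀ r, r < 77 →
    S.rn T.n 41 s κ (r + 1) + 128 = S.rn T.n 41 s κ r + T.omn 41 ((S.X s r + κ) % T.n) := by
  decide +kernel

theorem hU_42 : Tc.chkU T S 42 = true := by decide +kernel

theorem hOU_42 : Tc.chkOU T S 42 = true := by decide +kernel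

theorem r1_42 : ∀ s, s < 2 → ∀ κ, κ < 7 → ∀ r, r < 77 →
    S.rn T.n 42 s κ (r + 1) + 128 = S.rn T.n 42 s κ r + T.omn 42 ((S.X s r + κ) % T.n) := by
  decide +kernel

theorem hU_43 : Tc.chkU T S 43 = true := by decide +kernel

theorem hOU_43 : Tc.chkOU T S 43 = true := by decide +kernel

theorem r1_43 : ∀ s, s < 2 → ∀ κ, κ < 7 → ∀ r, r < 77 →
    S.rn T.n 43 s κ (r + 1) + 128 = S.rn T.n 43 s κ r + T.omn 43 ((S.X s r + κ) % T.n) := by
  decide +kernel

theorem hU_44 : Tc.chkU T S 44 = true := by decide +kernel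

theorem hOU_44 : Tc.chkOU T S 44 = true := by decide +kernel

theorem r1_44 : ∀ s, s < 2 → ∀ κ, κ < 7 → ∀ r, r < 77 →
    S.rn T.n 44 s κ (r + 1) + 128 = S.rn T.n 44 s κ r + T.omn 44 ((S.X s r + κ) % T.n) := by
  decide +kernel

theorem hU_45 : Tc.chkU T S 45 = true := by decide +kernel

theorem hOU_45 : Tc.chkOU T S 45 = true := by decide +kernel

theorem r1_45 : ∀ s, s < 2 → ∀ κ, κ < 7 → ∀ r, r < 77 →
    S.rn T.n 45 s κ (r + 1) + 128 = S.rn T.n 45 s κ r + T.omn 45 ((S.X s r + κ) % T.n) := by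
  decide +kernel

theorem hU_46 : Tc.chkU T S 46 = true := by decide +kernel

theorem hOU_46 : Tc.chkOU T S 46 = true := by decide +kernel

theorem r1_46 : ∀ s, s < 2 → ∀ κ, κ < 7 → ∀ r, r < 77 →
    S.rn T.n 46 s κ (r + 1) + 128 = S.rn T.n 46 s κ r + T.omn 46 ((S.X s r + κ) % T.n) := by
  decide +kernel

theorem hU_47 : Tc.chkU T S 47 = true := by decide +kernel

theorem hOU_47 : Tc.chkOU T S 47 = true := by decide +kernel

theorem r1_47 : ∀ s, s < 2 → ∀ κ, κ < 7 → ∀ r, r < 77 →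
    S.rn T.n 47 s κ (r + 1) + 128 = S.rn T.n 47 s κ r + T.omn 47 ((S.X s r + κ) % T.n) := by
  decide +kernel

end MPbbea99T.D7
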