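import Pool.Agent.Lib.Pbbea99T.D7.Cer0
import Pool.Agent.Lib.Pbbea99T.D7.Cer1
import Pool.Agent.Lib.Pbbea99T.D7.Cer2
import Pool.Agent.Lib.Pbbea99T.D7.Cer3

/-!
# MP_bbea99_co: the certificates
-/

namespace MPbbea99T.D7

open MPbbea99T MPbbea99S Finset

theorem q0 : ∀ i, i < 48 → ∀ κ, κ < 7 → T.qn i κ 0 = 2048 := by decide +kernel

theorem q1 : ∀ i, i < 48 → ∀ κ, κ < 7 → ∀ t, t < 29 → T.qn i κ (t + 1) + 128 +
    2 * T.w t * T.omn i ((κ + t) % 7) = T.qn i κ t + T.omn i ((κ + t) % 7) +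
      256 * T.w t := by decide +kernel

theorem hq : ∀ i, i < T.I → ∀ κ, κ < T.n → ∀ t, t ≤ T.M →
    T.q i κ t = QS T.w (fun x => T.om i (x % T.n)) κ t := T.q_eq q0 q1

theorem hN : ∀ i, i < 48 → 0 < S.nn i := by decide +kernel

theorem hfi : ∀ i, i < 48 → ∀ f, f < S.J → S.fi i f < 48 := by decide +kernel

theorem hom : ∀ i, i < 48 → ∀ κ, κ < 7 →
    S.nn i * T.omn i κ + sumN (fun f => S.an i f) S.J * 2048 =
      sumN (fun f => S.an i f * T.qn (S.fi i f) ((T.M * κ + S.fj i f) % T.n) T.M) S.J +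
        S.nn i * 128 := by decide +kernel

theorem hmu : ∀ i, i < 48 →
    S.nn i * T.mun i + sumN (fun f => S.an i f) S.J * (T.M * 128) =
      sumN (fun f => S.an i f * (T.M * T.mun (S.fi i f))) S.J + S.nn i * 128 := by decide +kernel

theorem hU : ∀ i, i < 48 → Tc.chkU T S i = true := by
  intro i hi
  interval_cases i
  · exact hU_0
  · exact hU_1
  · exact hU_2
  · exact hU_3
  · exact hU_4
  · exact hU_5
  · exact hU_6
  · exact hU_7
  · exact hU_8
  · exact hU_9
  · exact hU_10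
  · exact hU_11
  · exact hU_12
  · exact hU_13
  · exact hU_14
  · exact hU_15
  · exact hU_16
  · exact hU_17
  · exact hU_18
  · exact hU_19
  · exact hU_20
  · exact hU_21
  · exact hU_22
  · exact hU_23
  · exact hU_24
  · exact hU_25
  · exact hU_26
  · exact hU_27
  · exact hU_28
  · exact hU_29
  · exact hU_30
  · exact hU_31
  · exact hU_32
  · exact hU_33
  · exact hU_34
  · exact hU_35
  · exact hU_36
  · exact hU_37
  · exact hU_38
  · exact hU_39
  · exact hU_40
  · exact hU_41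
  · exact hU_42
  · exact hU_43
  · exact hU_44
  · exact hU_45
  · exact hU_46
  · exact hU_47

theorem cert : Cert T.n T.M T.w T.I T.om T.mu T.U T.q S.J S.N S.al S.fi S.fj :=
  Tc.mkCert T S (by decide +kernel) hq hN hfi hom hmu hU

theorem r0' : ∀ i, i < 48 → ∀ s, s < 2 → ∀ κ, κ < 7 → S.rn T.n i s κ 0 = 8192 := by
  decide +kernel

theorem r1' : ∀ i, i < 48 → ∀ s, s < 2 → ∀ κ, κ < 7 → ∀ r, r < 77 →
    S.rn T.n i s κ (r + 1) + 128 = S.rn T.n i s κ r + T.omn i ((S.X s r + κ) % T.n) := by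
  intro i hi
  interval_cases i
  · exact r1_0
  · exact r1_1
  · exact r1_2
  · exact r1_3
  · exact r1_4
  · exact r1_5
  · exact r1_6
  · exact r1_7
  · exact r1_8
  · exact r1_9
  · exact r1_10
  · exact r1_11
  · exact r1_12
  · exact r1_13
  · exact r1_14
  · exact r1_15
  · exact r1_16
  · exact r1_17
  · exact r1_18
  · exact r1_19
  · exact r1_20
  · exact r1_21
  · exact r1_22
  · exact r1_23
  · exact r1_24
  · exact r1_25
  · exact r1_26
  · exact r1_27
  · exact r1_28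
  · exact r1_29
  · exact r1_30
  · exact r1_31
  · exact r1_32
  · exact r1_33
  · exact r1_34
  · exact r1_35
  · exact r1_36
  · exact r1_37
  · exact r1_38
  · exact r1_39
  · exact r1_40
  · exact r1_41
  · exact r1_42
  · exact r1_43
  · exact r1_44
  · exact r1_45
  · exact r1_46
  · exact r1_47

theorem r2' : ∀ i, i < 48 → ∀ κ, κ < 7 →
    S.rn T.n i 0 κ S.m + S.d * 128 = 8192 + S.d * T.omn i κ := by decide +kernel

theorem r3' : ∀ i, i < 48 → ∀ κ, κ < 7 →
    S.rn T.n i 1 κ S.m + S.d * T.omn i κ = 8192 + S.d * 128 := by decide +kernel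

theorem hOU : ∀ i, i < 48 → Tc.chkOU T S i = true := by
  intro i hi
  interval_cases i
  · exact hOU_0
  · exact hOU_1
  · exact hOU_2
  · exact hOU_3
  · exact hOU_4
  · exact hOU_5
  · exact hOU_6
  · exact hOU_7
  · exact hOU_8
  · exact hOU_9
  · exact hOU_10
  · exact hOU_11
  · exact hOU_12
  · exact hOU_13
  · exact hOU_14
  · exact hOU_15
  · exact hOU_16
  · exact hOU_17
  · exact hOU_18
  · exact hOU_19
  · exact hOU_20
  · exact hOU_21
  · exact hOU_22
  · exact hOU_23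
  · exact hOU_24
  · exact hOU_25
  · exact hOU_26
  · exact hOU_27
  · exact hOU_28
  · exact hOU_29
  · exact hOU_30
  · exact hOU_31
  · exact hOU_32
  · exact hOU_33
  · exact hOU_34
  · exact hOU_35
  · exact hOU_36
  · exact hOU_37
  · exact hOU_38
  · exact hOU_39
  · exact hOU_40
  · exact hOU_41
  · exact hOU_42
  · exact hOU_43
  · exact hOU_44
  · exact hOU_45
  · exact hOU_46
  · exact hOU_47

theorem ocert : OCert Q.n Q.m S.X T.I T.om T.mu T.U (S.R T.n) S.d :=
  Tc.mkOCert T S (by decide +kernel) (by decide +kernel) r0' r1' r2' r3' hOU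

end MPbbea99T.D7
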