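import Pool.Agent.Lib.Pbbea99T.D7.Data

/-!
# MP_bbea99_co: the certificates
-/

namespace MPbbea99T.D7

open MPbbea99T MPbbea99S

theorem hU_0 : Tc.chkU T S 0 = true := by decide +kernel

theorem hOU_0 : Tc.chkOU T S 0 = true := by decide +kernel

theorem r1_0 : ∀ s, s < 2 → ∀ κ, κ < 7 → ∀ r, r < 77 →
    S.rn T.n 0 s κ (r + 1) + 128 = S.rn T.n 0 s κ r + T.omn 0 ((S.X s r + κ) % T.n) := by
  decide +kernel

theorem hU_1 : Tc.chkU T S 1 = true := by decide +kernel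

theorem hOU_1 : Tc.chkOU T S 1 = true := by decide +kernel

theorem r1_1 : ∀ s, s < 2 → ∀ κ, κ < 7 → ∀ r, r < 77 →
    S.rn T.n 1 s κ (r + 1) + 128 = S.rn T.n 1 s κ r + T.omn 1 ((S.X s r + κ) % T.n) := by
  decide +kernel

theorem hU_2 : Tc.chkU T S 2 = true := by decide +kernel

theorem hOU_2 : Tc.chkOU T S 2 = true := by decide +kernel

theorem r1_2 : ∀ s, s < 2 → ∀ κ, κ < 7 → ∀ r, r < 77 →
    S.rn T.n 2 s κ (r + 1) + 128 = S.rn T.n 2 s κ r + T.omn 2 ((S.X s r + κ) % T.n) := by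
  decide +kernel

theorem hU_3 : Tc.chkU T S 3 = true := by decide +kernel

theorem hOU_3 : Tc.chkOU T S 3 = true := by decide +kernel

theorem r1_3 : ∀ s, s < 2 → ∀ κ, κ < 7 → ∀ r, r < 77 →
    S.rn T.n 3 s κ (r + 1) + 128 = S.rn T.n 3 s κ r + T.omn 3 ((S.X s r + κ) % T.n) := by
  decide +kernel

theorem hU_4 : Tc.chkU T S 4 = true := by decide +kernel

theorem hOU_4 : Tc.chkOU T S 4 = true := by decide +kernel

theorem r1_4 : ∀ s, s < 2 → ∀ κ, κ < 7 → ∀ r, r < 77 →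
    S.rn T.n 4 s κ (r + 1) + 128 = S.rn T.n 4 s κ r + T.omn 4 ((S.X s r + κ) % T.n) := by
  decide +kernel

theorem hU_5 : Tc.chkU T S 5 = true := by decide +kernel

theorem hOU_5 : Tc.chkOU T S 5 = true := by decide +kernel

theorem r1_5 : ∀ s, s < 2 → ∀ κ, κ < 7 → ∀ r, r < 77 →
    S.rn T.n 5 s κ (r + 1) + 128 = S.rn T.n 5 s κ r + T.omn 5 ((S.X s r + κ) % T.n) := by
  decide +kernel

theorem hU_6 : Tc.chkU T S 6 = true := by decide +kernel

theorem hOU_6 : Tc.chkOU T S 6 = true := by decide +kernel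

theorem r1_6 : ∀ s, s < 2 → ∀ κ, κ < 7 → ∀ r, r < 77 →
    S.rn T.n 6 s κ (r + 1) + 128 = S.rn T.n 6 s κ r + T.omn 6 ((S.X s r + κ) % T.n) := by
  decide +kernel

theorem hU_7 : Tc.chkU T S 7 = true := by decide +kernel

theorem hOU_7 : Tc.chkOU T S 7 = true := by decide +kernel

theorem r1_7 : ∀ s, s < 2 → ∀ κ, κ < 7 → ∀ r, r < 77 →
    S.rn T.n 7 s κ (r + 1) + 128 = S.rn T.n 7 s κ r + T.omn 7 ((S.X s r + κ) % T.n) := by
  decide +kernel

theorem hU_8 : Tc.chkU T S 8 = true := by decide +kernel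

theorem hOU_8 : Tc.chkOU T S 8 = true := by decide +kernel

theorem r1_8 : ∀ s, s < 2 → ∀ κ, κ < 7 → ∀ r, r < 77 →
    S.rn T.n 8 s κ (r + 1) + 128 = S.rn T.n 8 s κ r + T.omn 8 ((S.X s r + κ) % T.n) := by
  decide +kernel

theorem hU_9 : Tc.chkU T S 9 = true := by decide +kernel

theorem hOU_9 : Tc.chkOU T S 9 = true := by decide +kernel

theorem r1_9 : ∀ s, s < 2 → ∀ κ, κ < 7 → ∀ r, r < 77 →
    S.rn T.n 9 s κ (r + 1) + 128 = S.rn T.n 9 s κ r + T.omn 9 ((S.X s r + κ) % T.n) := by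
  decide +kernel

theorem hU_10 : Tc.chkU T S 10 = true := by decide +kernel

theorem hOU_10 : Tc.chkOU T S 10 = true := by decide +kernel

theorem r1_10 : ∀ s, s < 2 → ∀ κ, κ < 7 → ∀ r, r < 77 →
    S.rn T.n 10 s κ (r + 1) + 128 = S.rn T.n 10 s κ r + T.omn 10 ((S.X s r + κ) % T.n) := by
  decide +kernel

theorem hU_11 : Tc.chkU T S 11 = true := by decide +kernel

theorem hOU_11 : Tc.chkOU T S 11 = true := by decide +kernel

theorem r1_11 : ∀ s, s < 2 → ∀ κ, κ < 7 → ∀ r, r < 77 →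
    S.rn T.n 11 s κ (r + 1) + 128 = S.rn T.n 11 s κ r + T.omn 11 ((S.X s r + κ) % T.n) := by
  decide +kernel

end MPbbea99T.D7
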