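import Pool.Agent.Lib.Pbbea99T.D7.Data

/-!
# MP_bbea99_co: the tables of maxima
-/

namespace MPbbea99T.D7

open MPbbea99T MPbbea99S

theorem tx10_0 : nthL P.xT ((2 * 1 + 0) * 7 + 0) =
    pkR 21 (T.xB 1 0 0) (48 * 7) := by decide +kernel

theorem tx10_1 : nthL P.xT ((2 * 1 + 0) * 7 + 1) =
    pkR 21 (T.xB 1 0 1) (48 * 7) := by decide +kernel

theorem tx10_2 : nthL P.xT ((2 * 1 + 0) * 7 + 2) =
    pkR 21 (T.xB 1 0 2) (48 * 7) := by decide +kernel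

theorem tx10_3 : nthL P.xT ((2 * 1 + 0) * 7 + 3) =
    pkR 21 (T.xB 1 0 3) (48 * 7) := by decide +kernel

theorem tx10_4 : nthL P.xT ((2 * 1 + 0) * 7 + 4) =
    pkR 21 (T.xB 1 0 4) (48 * 7) := by decide +kernel

theorem tx10_5 : nthL P.xT ((2 * 1 + 0) * 7 + 5) =
    pkR 21 (T.xB 1 0 5) (48 * 7) := by decide +kernel

theorem tx10_6 : nthL P.xT ((2 * 1 + 0) * 7 + 6) =
    pkR 21 (T.xB 1 0 6) (48 * 7) := by decide +kernel

theorem tx10 : ∀ κ, κ < 7 → nthL P.xT ((2 * 1 + 0) * 7 + κ) =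
    pkR 21 (T.xB 1 0 κ) (48 * 7) := by
  intro κ hκ
  interval_cases κ
  · exact tx10_0
  · exact tx10_1
  · exact tx10_2
  · exact tx10_3
  · exact tx10_4
  · exact tx10_5
  · exact tx10_6

end MPbbea99T.D7
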