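import Pool.Agent.Lib.Pbbea99T.D7.Data

/-!
# MP_bbea99_co: the tables of maxima
-/

namespace MPbbea99T.D7

open MPbbea99T MPbbea99S

theorem tx11_0 : nthL P.xT ((2 * 1 + 1) * 7 + 0) =
    pkR 21 (T.xB 1 1 0) (48 * 7) := by decide +kernel

theorem tx11_1 : nthL P.xT ((2 * 1 + 1) * 7 + 1) =
    pkR 21 (T.xB 1 1 1) (48 * 7) := by decide +kernel

theorem tx11_2 : nthL P.xT ((2 * 1 + 1) * 7 + 2) =
    pkR 21 (T.xB 1 1 2) (48 * 7) := by decide +kernel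

theorem tx11_3 : nthL P.xT ((2 * 1 + 1) * 7 + 3) =
    pkR 21 (T.xB 1 1 3) (48 * 7) := by decide +kernel

theorem tx11_4 : nthL P.xT ((2 * 1 + 1) * 7 + 4) =
    pkR 21 (T.xB 1 1 4) (48 * 7) := by decide +kernel

theorem tx11_5 : nthL P.xT ((2 * 1 + 1) * 7 + 5) =
    pkR 21 (T.xB 1 1 5) (48 * 7) := by decide +kernel

theorem tx11_6 : nthL P.xT ((2 * 1 + 1) * 7 + 6) =
    pkR 21 (T.xB 1 1 6) (48 * 7) := by decide +kernel

theorem tx11 : ∀ κ, κ < 7 → nthL P.xT ((2 * 1 + 1) * 7 + κ) =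
    pkR 21 (T.xB 1 1 κ) (48 * 7) := by
  intro κ hκ
  interval_cases κ
  · exact tx11_0
  · exact tx11_1
  · exact tx11_2
  · exact tx11_3
  · exact tx11_4
  · exact tx11_5
  · exact tx11_6

end MPbbea99T.D7
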