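import Pool.Agent.Lib.Pbbea99T.D7.Cer
import Pool.Agent.Lib.Pbbea99T.D7.Hyp
import Pool.Agent.Lib.Pbbea99T.D7.C00
import Pool.Agent.Lib.Pbbea99T.D7.C01
import Pool.Agent.Lib.Pbbea99T.D7.C02
import Pool.Agent.Lib.Pbbea99T.D7.C03
import Pool.Agent.Lib.Pbbea99T.D7.C04
import Pool.Agent.Lib.Pbbea99T.D7.C05
import Pool.Agent.Lib.Pbbea99T.D7.O00
import Pool.Agent.Lib.Pbbea99T.D7.O01
import Pool.Agent.Lib.Pbbea99T.D7.O02
import Pool.Agent.Lib.Pbbea99T.D7.O03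
import Pool.Agent.Lib.Pbbea99T.D7.O04
import Pool.Agent.Lib.Pbbea99T.D7.O05
import Pool.Agent.Lib.Pbbea99T.D7.O06
import Pool.Agent.Lib.Pbbea99T.D7.O07
import Pool.Agent.Lib.Pbbea99T.D7.O08
import Pool.Agent.Lib.Pbbea99T.D7.O09
import Pool.Agent.Lib.Pbbea99T.D7.O10
import Pool.Agent.Lib.Pbbea99T.D7.O11
import Pool.Agent.Lib.Pbbea99T.D7.O12
import Pool.Agent.Lib.Pbbea99T.D7.O13
import Pool.Agent.Lib.Pbbea99T.D7.O14
import Pool.Agent.Lib.Pbbea99T.D7.O15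
import Pool.Agent.Lib.Pbbea99T.D7.O16
import Pool.Agent.Lib.Pbbea99T.D7.O17
import Pool.Agent.Lib.Pbbea99T.D7.O18
import Pool.Agent.Lib.Pbbea99T.D7.O19
import Pool.Agent.Lib.Pbbea99T.D7.O20
import Pool.Agent.Lib.Pbbea99T.D7.O21
import Pool.Agent.Lib.Pbbea99T.D7.O22
import Pool.Agent.Lib.Pbbea99T.D7.O23
import Pool.Agent.Lib.Pbbea99T.D7.O24
import Pool.Agent.Lib.Pbbea99T.D7.O25

/-!
# MP_bbea99_co: the word on 7 letters
-/

namespace MPbbea99T.D7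

open MPbbea99T MPbbea99S

/-- the sign sequence -/
def y : ℕ → ℕ := xs 2 29 T.w

theorem seq : IsSeq 2 29 T.w y := xs_isSeq (by norm_num) (by norm_num) (by decide +kernel)

theorem tL_eq : tL = t0 ++ t1 ++ t2 ++ t3 ++ t4 ++ t5 ++ t6 ++ t7 ++ t8 ++ t9 ++ t10 ++ t11 ++ t12 ++ t13 ++ t14 ++ t15 ++ t16 ++ t17 ++ t18 ++ t19 ++ t20 ++ t21 ++ t22 ++ t23 ++ t24 ++ t25 := by decide +kernel

theorem memT {t : ℕ} (h : t ∈ P.T) {p : ℕ → Prop}
    (h0 : ∀ t ∈ t0, p t)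
    (h1 : ∀ t ∈ t1, p t)
    (h2 : ∀ t ∈ t2, p t)
    (h3 : ∀ t ∈ t3, p t)
    (h4 : ∀ t ∈ t4, p t)
    (h5 : ∀ t ∈ t5, p t)
    (h6 : ∀ t ∈ t6, p t)
    (h7 : ∀ t ∈ t7, p t)
    (h8 : ∀ t ∈ t8, p t)
    (h9 : ∀ t ∈ t9, p t)
    (h10 : ∀ t ∈ t10, p t)
    (h11 : ∀ t ∈ t11, p t)
    (h12 : ∀ t ∈ t12, p t)
    (h13 : ∀ t ∈ t13, p t)
    (h14 : ∀ t ∈ t14, p t)
    (h15 : ∀ t ∈ t15, p t)
    (h16 : ∀ t ∈ t16, p t)
    (h17 : ∀ t ∈ t17, p t)
    (h18 : ∀ t ∈ t18, p t)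
    (h19 : ∀ t ∈ t19, p t)
    (h20 : ∀ t ∈ t20, p t)
    (h21 : ∀ t ∈ t21, p t)
    (h22 : ∀ t ∈ t22, p t)
    (h23 : ∀ t ∈ t23, p t)
    (h24 : ∀ t ∈ t24, p t)
    (h25 : ∀ t ∈ t25, p t)
    : p t := by
  have h' : t ∈ t0 ++ t1 ++ t2 ++ t3 ++ t4 ++ t5 ++ t6 ++ t7 ++ t8 ++ t9 ++ t10 ++ t11 ++ t12 ++ t13 ++ t14 ++ t15 ++ t16 ++ t17 ++ t18 ++ t19 ++ t20 ++ t21 ++ t22 ++ t23 ++ t24 ++ t25 := by
    rw [← tL_eq]
    exact h
  simp only [List.mem_append] at h'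
  rcases h' with ((((((((((((((((((((((((h | h) | h) | h) | h) | h) | h) | h) | h) | h) | h) | h) | h) | h) | h) | h) | h) | h) | h) | h) | h) | h) | h) | h) | h) | h
  · exact h0 t h
  · exact h1 t h
  · exact h2 t h
  · exact h3 t h
  · exact h4 t h
  · exact h5 t h
  · exact h6 t h
  · exact h7 t h
  · exact h8 t h
  · exact h9 t h
  · exact h10 t h
  · exact h11 t h
  · exact h12 t h
  · exact h13 t h
  · exact h14 t h
  · exact h15 t h
  · exact h16 t h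
  · exact h17 t h
  · exact h18 t h
  · exact h19 t h
  · exact h20 t h
  · exact h21 t h
  · exact h22 t h
  · exact h23 t h
  · exact h24 t h
  · exact h25 t h

theorem closed : ∀ t ∈ P.T, chkT P t = true := by
  intro t ht
  exact memT ht (p := fun t => chkT P t = true) (allL_spec tc0) (allL_spec tc1) (allL_spec tc2) (allL_spec tc3) (allL_spec tc4) (allL_spec tc5) (allL_spec tc6) (allL_spec tc7) (allL_spec tc8) (allL_spec tc9) (allL_spec tc10) (allL_spec tc11) (allL_spec tc12) (allL_spec tc13) (allL_spec tc14) (allL_spec tc15) (allL_spec tc16) (allL_spec tc17) (allL_spec tc18) (allL_spec tc19) (allL_spec tc20) (allL_spec tc21) (allL_spec tc22) (allL_spec tc23) (allL_spec tc24) (allL_spec tc25)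

theorem windows : ∀ t ∈ P.T, chkO Q t = true := by
  intro t ht
  exact memT ht (p := fun t => chkO Q t = true) (allL_spec to0) (allL_spec to1) (allL_spec to2) (allL_spec to3) (allL_spec to4) (allL_spec to5) (allL_spec to6) (allL_spec to7) (allL_spec to8) (allL_spec to9) (allL_spec to10) (allL_spec to11) (allL_spec to12) (allL_spec to13) (allL_spec to14) (allL_spec to15) (allL_spec to16) (allL_spec to17) (allL_spec to18) (allL_spec to19) (allL_spec to20) (allL_spec to21) (allL_spec to22) (allL_spec to23) (allL_spec to24) (allL_spec to25)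

theorem zero : ∃ t ∈ P.T, Match P.n P.A P.B 32768 y t 0 0 0 0 := by
  refine ⟨nthL tL 0, memL_spec (by decide +kernel), ?_⟩
  apply match_zero (by simp [y, xs]) <;> decide +kernel

/-- `𝒜(s,7)` holds for all `s` above the threshold -/
theorem avoid (s : ℝ) (hs1 : 1 < s) (hs2 : (1 : ℝ) < (s - 1) * (2 + 1)) : Avoid s 7 := by
  have h := avoid_main chyp seq cert closed zero ohyp ocert windows rfl rfl rfl rfl s hs1
    (by
      have e1 : ((Q.B : ℕ) : ℝ) = 1 := by norm_num [Q]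
      have e2 : ((Q.A : ℕ) : ℝ) = 2 := by norm_num [Q]
      rw [e1, e2]
      exact hs2)
  exact h

end MPbbea99T.D7
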